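import Pool.Agent.Helper19.HN.St

/-!
# HN, module TRE: one ordinal `i₀` below which the sets `Sd` are stationary unboundedly often
-/

namespace Pool.Agent.Helper89.HN.TRE

open Ordinal Cardinal ZFSet Order Pool.Agent.Helper73.HODC Pool.Agent.Helper73.HM
open Pool.Agent.Helper73.HE Pool.Agent.Helper73.HU Pool.Agent.Helper19.HN

/-- a stationary set has an element -/
theorem stat_elt {τ : Ordinal.{0}} (hτ : ℵ₀ < τ.cof) {S : Set Ordinal.{0}} (hS : Stat S τ) :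
    ∃ i ∈ S, i < τ := by
  obtain ⟨a, ha, -, hac⟩ := hS _ (club_univ (isSuccLimit_of_cof hτ))
  exact ⟨a, ha, hac⟩

theorem card_lt_cof {c : Cardinal.{0}} (hc : c.IsRegular) {j : Ordinal.{0}} (hj : j < c.ord) :
    j.card < c.ord.cof := by
  rw [hc.cof_ord]
  exact Cardinal.lt_ord.mp hj

/-- a function on an ordinal smaller than a regular cardinal is bounded -/
theorem bdd_few {c : Cardinal.{0}} (hc : c.IsRegular) {j : Ordinal.{0}} (hj : j < c.ord)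
    (f : Ordinal.{0} → Ordinal.{0}) (hf : ∀ k < j, f k < c.ord) :
    ∃ b < c.ord, ∀ k < j, f k ≤ b := by
  refine ⟨⨆ i : j.ToType, f (Ordinal.ToType.mk.symm i).1, ?_, ?_⟩
  · refine iSup_lt_of_lt_cof ?_ fun i => hf _ (Ordinal.ToType.mk.symm i).2
    rw [Cardinal.mk_toType]
    exact card_lt_cof hc hj
  · intro k hk
    have h1 := Ordinal.le_iSup (fun i : j.ToType => f (Ordinal.ToType.mk.symm i).1)
      (Ordinal.ToType.mk ⟨k, hk⟩)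
    simp only [OrderIso.symm_apply_apply] at h1
    exact h1

/-- the first difference -/
theorem first_diff {x u : ZFSet.{0}} {σ τ ξ ζ : Ordinal.{0}} (hx : x ∈ hodPow σ)
    (hu : u ∈ hodPow τ) (h : cut x ξ = cut u ξ) (h' : cut x ζ ≠ cut u ζ) :
    ∃ a < ζ, ξ ≤ a ∧ cut x a = cut u a ∧ cut x (a + 1) ≠ cut u (a + 1) := by
  have h1 : ∃ a, a < ζ ∧ ¬ (a ∈ st x ↔ a ∈ st u) := by
    by_contra hcon
    push Not at hcon
    exact h' (cut_ext hx hu hcon)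
  obtain ⟨a, ⟨ha, hd⟩, hmin⟩ := WellFounded.has_min (wellFounded_lt (α := Ordinal.{0}))
    {a | a < ζ ∧ ¬ (a ∈ st x ↔ a ∈ st u)} h1
  refine ⟨a, ha, ?_, ?_, ?_⟩
  · by_contra hlt
    rw [not_le] at hlt
    apply hd
    have h2 : a ∈ st (cut x ξ) ↔ a ∈ st (cut u ξ) := by rw [h]
    rw [st_cut, st_cut] at h2
    exact ⟨fun h3 => (h2.1 ⟨h3, hlt⟩).1, fun h3 => (h2.2 ⟨h3, hlt⟩).1⟩
  · refine cut_ext hx hu fun b hb => ?_
    by_contra hb'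
    exact hmin b ⟨hb.trans ha, hb'⟩ hb
  · intro h2
    apply hd
    have h3 : a ∈ st (cut x (a + 1)) ↔ a ∈ st (cut u (a + 1)) := by rw [h2]
    rw [st_cut, st_cut] at h3
    have h4 : a < a + 1 := lt_add_one a
    exact ⟨fun h5 => (h3.1 ⟨h5, h4⟩).1, fun h5 => (h3.2 ⟨h5, h4⟩).1⟩

/-- (1): almost every `i` in `EE'` has a stationary fibre through its cut at `ξ` -/
theorem step1 (h2 : StSM) {c : Cardinal.{0}} {A : Set Ordinal.{0}} (hc : c.IsRegular)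
    (hA : Atm c.ord A) (z : ZFSet.{0}) (y : Ordinal.{0} → ZFSet.{0}) {ξ : Ordinal.{0}}
    (hξ : ξ < c.ord) :
    AE c.ord (EE' c.ord A z y) (fun i =>
      Stat {i' | i' ∈ EE' c.ord A z y ∧ cut (y i') ξ = cut (y i) ξ} c.ord) := by
  rw [AE_iff]
  intro hS
  obtain ⟨j, hj, e, he⟩ := h2 c A hc hA ξ hξ
  obtain ⟨k, hk, hst⟩ := stat_few hA.cof (card_lt_cof hc hj) hS
    (F := fun k => {i | cut (y i) ξ = e k}) (fun i hi _ => by
      obtain ⟨k, hk, h⟩ := he _ (cut_mem hi.1.2.1 ξ)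
      exact ⟨k, hk, h.symm⟩)
  obtain ⟨i₀, ⟨⟨_, hi2⟩, hi3⟩, _⟩ := stat_elt hA.cof hst
  refine hi2 (hst.mono fun i hi _ => ⟨hi.1.1, ?_⟩)
  have h3 : cut (y i) ξ = e k := hi.2
  have h4 : cut (y i₀) ξ = e k := hi3
  rw [h3, h4]

/-- (2): one bound for the splitting of all the fibres at `ξ` -/
theorem step2 (h1 : StNSP) (h2 : StSM) {c : Cardinal.{0}} {A : Set Ordinal.{0}}
    {X : Ordinal.{0} → ZFSet.{0}} {z : ZFSet.{0}} {y : Ordinal.{0} → ZFSet.{0}}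
    (hc : c.IsRegular) (hA : Atm c.ord A) (hX : Sur c.ord X) (hS : Setup c.ord A X z y)
    {ξ : Ordinal.{0}} (hξ : ξ < c.ord) :
    ∃ ζ < c.ord, ∀ u, Stat {i | i ∈ EE' c.ord A z y ∧ cut (y i) ξ = u} c.ord →
      ∀ w, Stat {i | (i ∈ EE' c.ord A z y ∧ cut (y i) ξ = u) ∧ cut (y i) ζ ≠ w} c.ord := by
  obtain ⟨j, hj, e, he⟩ := h2 c A hc hA ξ hξ
  have hch : ∀ u, ∃ ζ < c.ord, Stat {i | i ∈ EE' c.ord A z y ∧ cut (y i) ξ = u} c.ord →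
      ∀ w, Stat {i | (i ∈ EE' c.ord A z y ∧ cut (y i) ξ = u) ∧ cut (y i) ζ ≠ w} c.ord := by
    intro u
    by_cases hu : Stat {i | i ∈ EE' c.ord A z y ∧ cut (y i) ξ = u} c.ord
    · obtain ⟨ζ, hζ, h⟩ := h1 c A X z y hc hA hX hS ξ hξ u hu
      exact ⟨ζ, hζ, fun _ => h⟩
    · exact ⟨0, pos_of_cof hA.cof, fun h => absurd h hu⟩
  choose f hf hf' using hch
  obtain ⟨b, hb, hb'⟩ := bdd_few hc hj (fun k => f (e k)) (fun k _ => hf (e k))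
  refine ⟨b, hb, fun u hu w => ?_⟩
  obtain ⟨i₀, ⟨hi1, hi2⟩, _⟩ := stat_elt hA.cof hu
  have hu' : u ∈ hodPow ξ := by
    rw [← hi2]
    exact cut_mem hi1.2.1 ξ
  obtain ⟨k, hk, rfl⟩ := he u hu'
  refine (hf' (e k) hu (cut w (f (e k)))).mono fun i hi _ => ⟨hi.1, fun h => hi.2 ?_⟩
  rw [← h, cut_cut (hb' k hk)]

theorem tre (h1 : StNSP) (h2 : StSM) (h3 : StREG) : StTRE := by
  intro c A X z y hc hA hX hS j hj
  have hcof : ℵ₀ < c.ord.cof := hA.cof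
  have hc' : ℵ₀ < c := by
    rw [hc.cof_ord] at hcof
    exact hcof
  have hch : ∀ ξ, ∃ ζ, ξ < c.ord → ζ < c.ord ∧
      ∀ u, Stat {i | i ∈ EE' c.ord A z y ∧ cut (y i) ξ = u} c.ord →
        ∀ w, Stat {i | (i ∈ EE' c.ord A z y ∧ cut (y i) ξ = u) ∧ cut (y i) ζ ≠ w} c.ord := by
    intro ξ
    by_cases hξ : ξ < c.ord
    · obtain ⟨ζ, hζ, h⟩ := step2 h1 h2 hc hA hX hS hξ
      exact ⟨ζ, fun _ => ⟨hζ, h⟩⟩
    · exact ⟨0, fun h => absurd h hξ⟩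
  choose h hh using hch
  have ae1 : AE c.ord (EE' c.ord A z y) (fun i => ∀ ξ < i,
      Stat {i' | i' ∈ EE' c.ord A z y ∧ cut (y i') ξ = cut (y i) ξ} c.ord) :=
    AE_diag hc hc' (Q := fun ξ i =>
      Stat {i' | i' ∈ EE' c.ord A z y ∧ cut (y i') ξ = cut (y i) ξ} c.ord)
      fun ξ hξ => step1 h2 hc hA z y hξ
  have ae2 : AE c.ord (EE' c.ord A z y) (fun i => i ∈ {a | ∀ b < a, h b < a}) :=
    AE_of_club (Club.closure hc hc' h fun a ha => (hh a ha).1)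
  have ae3 : AE c.ord (EE' c.ord A z y) HODReg := AE_sub (h3 c A hc hA) fun a ha => ha.1
  have ae4 : AE c.ord (EE' c.ord A z y) (fun i => j < i) := AE_gt hcof _ hj
  obtain ⟨i₀, hi₀, hi₀c, ⟨⟨⟨hfib, hcl⟩, hreg⟩, hji⟩⟩ :=
    (((ae1.and hcof ae2).and hcof ae3).and hcof ae4).exists hcof hS.stat
  have hu : y i₀ ∈ hodPow i₀ := hi₀.2.1
  refine ⟨i₀, hji, hi₀c, hi₀.1, hreg, y i₀, hu, fun ξ hξ => ?_⟩
  have hζ : h ξ < i₀ := hcl ξ hξ
  have hst := (hh ξ (hξ.trans hi₀c)).2 _ (hfib ξ hξ) (cut (y i₀) (h ξ))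
  obtain ⟨k, hk, hst'⟩ := stat_few hcof (card_lt_cof hc (hζ.trans hi₀c)) hst
    (F := fun k => {i | ξ ≤ k ∧ i ∈ Sd c.ord A z y (y i₀) k}) (fun i hi _ => by
      obtain ⟨a, ha, h4, h5, h6⟩ := first_diff hi.1.1.2.1 hu hi.1.2 hi.2
      exact ⟨a, ha, h4, hi.1.1, h5, h6⟩)
  obtain ⟨i₁, ⟨_, hi₁, _⟩, _⟩ := stat_elt hcof hst'
  exact ⟨k, hi₁, hk.trans hζ, hst'.mono fun i hi _ => hi.2.2⟩

end Pool.Agent.Helper89.HN.TRE
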